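import Pool.Agent.T6.H66.TP.Poly
import Pool.Agent.T6.H66.PS.Sub

set_option autoImplicit false

open Filter Topology Set Metric unitInterval

namespace Pool.Agent.T6.H66.TP

open Pool.Agent.H789R2.AN Pool.Agent.H789R2.GP Pool.Agent.H721R2 Pool.Agent.T6.H66.PS

variable {X : Type*} [MetricSpace X]

/-- A uniform transverse polynomial atlas: the chart `p x` is defined on the ball of radius `ρ₀` at
`x`. -/
structure UAt (g : X ≃ₜ X) (d D : ℕ) (p : X → X → Fin d → ℝ) (ρ₀ : ℝ) : Prop where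
  pos : 0 < ρ₀
  unif : ∀ ε > 0, ∃ δ > 0, ∀ x, ∀ y ∈ ball x ρ₀, ∀ z ∈ ball x ρ₀, dist y z < δ →
    dist (p x y) (p x z) < ε
  stab : ∀ x, ∀ y ∈ ball x ρ₀, ∀ z ∈ ball x ρ₀, SR g ρ₀ y z → p x y = p x z
  inj : ∀ x, ∀ y ∈ ball x ρ₀, ∀ z ∈ ball x ρ₀, SR g.symm ρ₀ y z → p x y = p x z → y = z
  opn : ∀ ρ > 0, ∃ r > 0, ∀ x, ∀ y ∈ ball x (ρ₀ / 2), ∀ v, dist v (p x y) < r →
    ∃ z, dist z y < ρ ∧ p x z = v
  opn' : ∀ x, ∀ y ∈ ball x ρ₀, ∀ N ∈ 𝓝 y, p x '' N ∈ 𝓝 (p x y)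
  trF : ∀ (k : ℕ) (x y z : X), z ∈ ball x ρ₀ → g^[k] z ∈ ball y ρ₀ →
    ∃ P, IsPoly d D P ∧ ∀ᶠ w in 𝓝 z, p y (g^[k] w) = P (p x w)
  trB : ∀ (k : ℕ) (x y z : X), z ∈ ball x ρ₀ → g.symm^[k] z ∈ ball y ρ₀ →
    ∃ P, IsPoly d D P ∧ ∀ᶠ w in 𝓝 z, p y (g.symm^[k] w) = P (p x w)

variable {g : X ≃ₜ X} {d D : ℕ} {p : X → X → Fin d → ℝ} {ρ₀ : ℝ}

/-- uniqueness of the transition maps -/
theorem UAt.uc (h : UAt g d D p ρ₀) {x z : X} (hz : z ∈ ball x ρ₀) {D₁ D₂ : ℕ}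
    {P P' : (Fin d → ℝ) → Fin d → ℝ} (hP : IsPoly d D₁ P) (hP' : IsPoly d D₂ P')
    (he : ∀ᶠ w in 𝓝 z, P (p x w) = P' (p x w)) : P = P' := by
  refine hP.ext hP' (v₀ := p x z) ?_
  refine mem_of_superset (h.opn' x z hz _ he) ?_
  rintro v ⟨w, hw, rfl⟩
  exact hw

/-- the transition maps are constant along paths -/
theorem UAt.tr (h : UAt g d D p ρ₀) {x y : X} {φ : X → X}
    (hloc : ∀ z, z ∈ ball x ρ₀ → φ z ∈ ball y ρ₀ →
      ∃ P, IsPoly d D P ∧ ∀ᶠ w in 𝓝 z, p y (φ w) = P (p x w)) (γ : C(I, X))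
    (hγ : ∀ t, γ t ∈ ball x ρ₀ ∧ φ (γ t) ∈ ball y ρ₀) {P : (Fin d → ℝ) → Fin d → ℝ}
    (hP : IsPoly d D P) (h0 : ∀ᶠ w in 𝓝 (γ 0), p y (φ w) = P (p x w)) (t : I) :
    ∀ᶠ w in 𝓝 (γ t), p y (φ w) = P (p x w) := by
  set A : Set I := {t | ∀ᶠ w in 𝓝 (γ t), p y (φ w) = P (p x w)} with hA
  have hcl : IsClopen A := by
    constructor
    · rw [← isOpen_compl_iff, isOpen_iff_mem_nhds]
      intro s hs
      obtain ⟨P', hP', he⟩ := hloc (γ s) (hγ s).1 (hγ s).2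
      have h1 := γ.continuous.continuousAt.eventually (eventually_eventually_nhds.mpr he)
      filter_upwards [h1] with r hr hrA
      have hPP : P' = P := h.uc (hγ r).1 hP' hP (by
        have hrA' : ∀ᶠ w in 𝓝 (γ r), p y (φ w) = P (p x w) := hrA
        filter_upwards [hr, hrA'] with w h2 h3
        rw [← h2, h3])
      rw [hPP] at he
      exact hs he
    · rw [isOpen_iff_mem_nhds]
      intro s hs
      have hs' : ∀ᶠ w in 𝓝 (γ s), p y (φ w) = P (p x w) := hs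
      exact γ.continuous.continuousAt.eventually (eventually_eventually_nhds.mpr hs')
  have hAu : A = univ := by
    rcases isClopen_iff.mp hcl with h6 | h6
    · exact absurd (show (0 : I) ∈ A from h0) (by rw [h6]; simp)
    · exact h6
  have : t ∈ A := by rw [hAu]; trivial
  exact this

end Pool.Agent.T6.H66.TP
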