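import Pool.Agent.T6.H66.TP.Small
import Pool.Agent.T6.H66.QR.Pin

set_option autoImplicit false

open Filter Topology Set Metric unitInterval

namespace Pool.Agent.T6.H66.TP

open Pool.Agent.H789R2.AN Pool.Agent.H789R2.GP Pool.Agent.H721R2 Pool.Agent.T6.H66.PS
  Pool.Agent.T6.H66.QR

variable {X : Type*} [MetricSpace X] {g : X ≃ₜ X} {d D : ℕ} {p : X → X → Fin d → ℝ} {ρ₀ c : ℝ}

/-- All points of an unstable path are uniformly contracted. -/
theorem path_contr [CompactSpace X] (h : LP g c) (υ : C(I, SM g.symm)) {ρ : ℝ} (hρ : 0 < ρ) :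
    ∃ k₀ : ℕ, ∀ k ≥ k₀, ∀ t, SR g.symm ρ (g.symm^[k] (υ 0).val) (g.symm^[k] (υ t).val) := by
  obtain ⟨n, hn⟩ := chain_path υ h.c_pos
  obtain ⟨k₀, hk₀⟩ := pow_half_small ((n : ℝ) * c) hρ
  refine ⟨k₀, fun k hk t => ?_⟩
  refine chain_contr h.symm (N := n) ?_ (by rw [← mul_assoc]; exact hk₀ k hk)
  obtain ⟨τ, h0, h1, h2⟩ := hn t
  exact ⟨fun i => (υ (τ i)).val, by show (υ (τ 0)).val = _; rw [h0],
    by show (υ (τ n)).val = _; rw [h1], h2⟩

/-- Coordinates of the points of an unstable path. -/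
theorem UAt.coord [CompactSpace X] (hA : UAt g d D p ρ₀) (h : LP g c)
    (υ : C(I, SM g.symm)) : ∃ (v : I → Fin d → ℝ) (V : ℝ), 0 ≤ V ∧
      (∀ t, dist (v t) (p (υ 0).val (υ 0).val) ≤ V) ∧ ∃ k₀ : ℕ, ∀ k ≥ k₀, ∀ P, IsPoly d D P →
      (∀ᶠ u in 𝓝 (υ 0).val, p (g.symm^[k] (υ 0).val) (g.symm^[k] u) = P (p (υ 0).val u)) →
      ∀ t, p (g.symm^[k] (υ 0).val) (g.symm^[k] (υ t).val) = P (v t) := by
  have h0 := hA.pos
  set x := (υ 0).val with hx
  obtain ⟨k₀, hk₀⟩ := path_contr h υ (half_pos h0)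
  have hk₀' : ∀ k ≥ k₀, ∀ t, g.symm^[k] (υ t).val ∈ ball (g.symm^[k] x) ρ₀ := fun k hk t => by
    have := hk₀ k hk t 0
    simp only [Function.iterate_zero, id_eq] at this
    rw [mem_ball, dist_comm]
    rw [← hx] at this
    linarith
  set b := g.symm^[k₀] x with hb
  have hgb : g^[k₀] b = x := iterR g k₀ x
  obtain ⟨Q, hQ, hQe⟩ := hA.trF k₀ b x b (mem_ball_self h0) (by rw [hgb]; exact mem_ball_self h0)
  have hcy : Continuous fun t : I => g.symm^[k₀] (υ t).val :=
    (g.symm.continuous.iterate k₀).comp (SM.val_continuous.comp υ.continuous)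
  have hcv : Continuous fun t : I => Q (p b (g.symm^[k₀] (υ t).val)) := by
    refine hQ.continuous.comp ?_
    rw [Metric.continuous_iff]
    intro a ε hε
    obtain ⟨δ, hδ, hun⟩ := hA.unif ε hε
    obtain ⟨s₀, hs₀, h1⟩ := Metric.continuous_iff.mp hcy a δ hδ
    exact ⟨s₀, hs₀, fun a' ha' => hun b _ (hk₀' k₀ le_rfl a') _ (hk₀' k₀ le_rfl a) (h1 a' ha')⟩
  obtain ⟨V, hV⟩ := (isCompact_univ (X := I)).exists_bound_of_continuousOn
    (f := fun t : I => dist (Q (p b (g.symm^[k₀] (υ t).val))) (p x x))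
    (hcv.dist continuous_const).continuousOn
  refine ⟨fun t => Q (p b (g.symm^[k₀] (υ t).val)), max V 0, le_max_right _ _, fun t => ?_, k₀,
    fun k hk P hP he t => ?_⟩
  · have := hV t (mem_univ t)
    rw [Real.norm_of_nonneg dist_nonneg] at this
    exact this.trans (le_max_left _ _)
  -- the transition `R`
  have hkk : ∀ u, g.symm^[k - k₀] (g.symm^[k₀] u) = g.symm^[k] u := fun u => by
    rw [← Function.iterate_add_apply, Nat.sub_add_cancel hk]
  set z := g.symm^[k] x with hz
  have hbz : g.symm^[k - k₀] b = z := hkk x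
  obtain ⟨R, hR, hRe⟩ := hA.trB (k - k₀) b z b (mem_ball_self h0)
    (by rw [hbz]; exact mem_ball_self h0)
  let γ : C(I, X) := ⟨fun s => g.symm^[k₀] (υ s).val, hcy⟩
  have hγ0 : γ 0 = b := by
    show g.symm^[k₀] (υ 0).val = b
    rw [hb, hx]
  have key := hA.tr (x := b) (y := z) (φ := g.symm^[k - k₀])
    (fun w h1 h2 => hA.trB (k - k₀) b z w h1 h2) γ (fun s => by
      refine ⟨hk₀' k₀ le_rfl s, ?_⟩
      show g.symm^[k - k₀] (g.symm^[k₀] (υ s).val) ∈ ball z ρ₀
      rw [hkk]
      exact hk₀' k hk s) hR (by rw [hγ0]; exact hRe) t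
  have h3 := key.self_of_nhds
  have h4 : g.symm^[k - k₀] (γ t) = g.symm^[k] (υ t).val := hkk _
  rw [h4] at h3
  rw [h3]
  -- `R = P ∘ Q`
  obtain ⟨D', hPQ⟩ := hP.comp hQ
  have hRPQ : R = fun v => P (Q v) := by
    refine hA.uc (x := b) (z := b) (mem_ball_self h0) hR hPQ ?_
    have hcont : Tendsto (g^[k₀]) (𝓝 b) (𝓝 x) := by
      have := (g.continuous.iterate k₀).continuousAt (x := b)
      rw [ContinuousAt, hgb] at this
      exact this
    filter_upwards [hRe, hQe, hcont.eventually he] with w h5 h6 h7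
    rw [← h5, ← h6, ← h7, ← hkk, iterL]
  rw [hRPQ]
  rfl

/-- **Lifting along small stable steps.** -/
theorem UAt.lift [CompactSpace X] (hA : UAt g d D p ρ₀) (h : LP g c) (hX : ULC X) :
    ∃ η > 0, ∀ (υ : C(I, SM g.symm)) (x₁ : X), SR g η (υ 0).val x₁ → ∃ x', LO υ x₁ x' := by
  have h0 := hA.pos
  have hc := h.c_pos
  obtain ⟨κr, hκr, rows⟩ := lift_of_rows h
  obtain ⟨br, δ, hδ, -, h2, -, -⟩ := exists_br h
  obtain ⟨ηu, hηu, upath⟩ := leaf_path h.symm hX (ρ₀ / 4) (by positivity)
  obtain ⟨ηs, hηs, spath⟩ := leaf_path h hX (ρ₀ / 8) (by positivity)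
  set ε := min (min (c / 8) (ρ₀ / 4)) ηu with hε
  have hε0 : 0 < ε := by positivity
  have ε1 : ε ≤ c / 8 := (min_le_left _ _).trans (min_le_left _ _)
  have ε2 : ε ≤ ρ₀ / 4 := (min_le_left _ _).trans (min_le_right _ _)
  have ε3 : ε ≤ ηu := min_le_right _ _
  obtain ⟨ηb, hηb, hbr⟩ := h2 ε hε0
  set κ := min (min κr (ρ₀ / 4)) (min (ηb / 4) ηs) with hκ
  have hκ0 : 0 < κ := by positivity
  have κ1 : κ ≤ κr := (min_le_left _ _).trans (min_le_left _ _)
  have κ2 : κ ≤ ρ₀ / 4 := (min_le_left _ _).trans (min_le_right _ _)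
  have κ3 : κ ≤ ηb / 4 := (min_le_right _ _).trans (min_le_left _ _)
  have κ4 : κ ≤ ηs := (min_le_right _ _).trans (min_le_right _ _)
  obtain ⟨r, hr, hpt⟩ := hA.pt h hκ0
  refine ⟨ηs, hηs, fun υ x₁ hx₁ => ?_⟩
  set x := (υ 0).val with hx
  -- the stable path
  obtain ⟨γ, hγ0, hγ1, hγ⟩ := spath ⟨x⟩ ⟨x₁⟩ ((SM.dist_le _ _ hηs.le).mpr hx₁)
  have hγ' : ∀ s, SR g (ρ₀ / 8) x (γ s).val := fun s =>
    (SM.dist_le _ _ (by positivity)).mp (hγ s)
  -- coordinates
  obtain ⟨v, V, hV0, hV, k₀, hcoord⟩ := hA.coord h υ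
  rw [← hx] at hV hcoord
  obtain ⟨k₁, hk₁⟩ := hA.small' h hX hV0 (r / 2) (half_pos hr)
  obtain ⟨k₂, hk₂⟩ := path_contr h υ hκ0
  obtain ⟨k, hkk0, hkk1, hkk2⟩ : ∃ k, k₀ ≤ k ∧ k₁ ≤ k ∧ k₂ ≤ k :=
    ⟨max k₀ (max k₁ k₂), le_max_left _ _, (le_max_left _ _).trans (le_max_right _ _),
      (le_max_right _ _).trans (le_max_right _ _)⟩
  have hcm : ∀ x, g.symm (g x) = g (g.symm x) := fun x => by
    rw [g.symm_apply_apply, g.apply_symm_apply]
  let γk : C(I, SM g) := ⟨fun s => ⟨g.symm^[k] (γ s).val⟩,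
    (SM.continuous_mapIter hcm k).comp γ.continuous⟩
  obtain ⟨J, hJ⟩ := chain_path γk hκ0
  obtain ⟨τ, hτ0, hτJ, hτ⟩ := hJ 1
  let w : ℕ → X := fun j => (γ (τ j)).val
  let z : ℕ → X := fun j => g.symm^[k] (w j)
  have hz : ∀ j < J, SR g κ (z j) (z (j + 1)) := fun j hj => hτ j hj
  have hw0 : w 0 = x := by
    show (γ (τ 0)).val = x
    rw [hτ0, hγ0]
  have hwJ : w J = x₁ := by
    show (γ (τ J)).val = x₁
    rw [hτJ, hγ1]
  have hgz : ∀ j, g^[k] (z j) = w j := fun j => iterR g k (w j)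
  have hwx : ∀ j, dist (w j) x ≤ ρ₀ / 8 := fun j => by
    rw [dist_comm]; exact SR_d (hγ' (τ j))
  have hwb : ∀ j, w j ∈ ball x ρ₀ := fun j => by
    rw [mem_ball]; have := hwx j; linarith
  -- we need the open quarter ball for `small'`
  have hP : ∀ j, ∃ P, IsPoly d D P ∧
      ∀ᶠ u in 𝓝 (w j), p (z j) (g.symm^[k] u) = P (p x u) := fun j =>
    hA.trB k x (z j) (w j) (hwb j) (mem_ball_self h0)
  choose P hP hPe using hP
  -- the recursion for the `P j`
  have hrec : ∀ j < J, ∃ θ, IsPoly d D θ ∧ (∀ᶠ u in 𝓝 (z (j + 1)), p (z (j + 1)) u = θ (p (z j) u)) ∧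
      P (j + 1) = fun v => θ (P j v) := by
    intro j hj
    have hzz := hz j hj
    have hzzd : dist (z (j + 1)) (z j) ≤ ρ₀ / 4 := by
      rw [dist_comm]; exact (SR_d hzz).trans κ2
    obtain ⟨θ, hθ, hθe⟩ := hA.trF 0 (z j) (z (j + 1)) (z (j + 1))
      (by rw [mem_ball]; linarith) (mem_ball_self h0)
    refine ⟨θ, hθ, hθe, ?_⟩
    -- transition of `p (z j) ∘ g⁻ᵏ` at `w (j + 1)`
    obtain ⟨κp, h5, h6, h7⟩ := spath ⟨z j⟩ ⟨z (j + 1)⟩
      ((SM.dist_le _ _ hηs.le).mpr (hzz.mono κ4))
    have h7' : ∀ s, SR g (ρ₀ / 8) (z j) (κp s).val := fun s =>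
      (SM.dist_le _ _ (by positivity)).mp (h7 s)
    let γ' : C(I, X) := ⟨fun s => g^[k] (κp s).val,
      (g.continuous.iterate k).comp (SM.val_continuous.comp κp.continuous)⟩
    have hγ'0 : γ' 0 = w j := by
      show g^[k] (κp 0).val = w j
      rw [h5]
      exact hgz j
    have hγ'1 : γ' 1 = w (j + 1) := by
      show g^[k] (κp 1).val = w (j + 1)
      rw [h6]
      exact hgz (j + 1)
    have key := hA.tr (x := x) (y := z j) (φ := g.symm^[k])
      (fun u h1 h2 => hA.trB k x (z j) u h1 h2) γ' (fun s => by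
        constructor
        · have a1 := h7' s k
          rw [hgz] at a1
          have a2 := hwx j
          have a3 := dist_triangle_left (g^[k] (κp s).val) x (w j)
          rw [mem_ball]
          show dist (g^[k] (κp s).val) x < ρ₀
          linarith
        · have a1 := SR_d (h7' s)
          show g.symm^[k] (g^[k] (κp s).val) ∈ ball (z j) ρ₀
          rw [iterL, mem_ball, dist_comm]
          linarith) (hP j) (by rw [hγ'0]; exact hPe j) 1
    rw [hγ'1] at key
    obtain ⟨D', hD'⟩ := hθ.comp (hP j)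
    refine hA.uc (x := x) (z := w (j + 1)) (hwb _) (hP (j + 1)) hD' ?_
    have hcont : Tendsto (g.symm^[k]) (𝓝 (w (j + 1))) (𝓝 (z (j + 1))) :=
      (g.symm.continuous.iterate k).continuousAt (x := w (j + 1))
    filter_upwards [hPe (j + 1), key, hcont.eventually hθe] with u h8 h9 h10
    rw [← h8, ← h9]
    exact h10
  -- the rows
  let υk : C(I, SM g.symm) := ⟨fun t => ⟨g.symm^[k] (υ t).val⟩,
    (SM.continuous_mapIter (g := g.symm) (φ := g.symm) (fun _ => rfl) k).comp υ.continuous⟩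
  obtain ⟨x', hx'⟩ := rows J z υk (fun j hj => (hz j hj).mono κ1)
    (by show g.symm^[k] (υ 0).val = g.symm^[k] (w 0); rw [hw0, hx]) (fun t => by
      -- points with the coordinate `v t`
      have hpz : ∀ j, dist (P j (v t)) (p (z j) (z j)) ≤ r / 2 := by
        intro j
        refine hk₁ k hkk1 x (w j) ?_ (P j) (hP j) (hPe j) (v t) ?_
        · rw [mem_ball]; have := hwx j; linarith
        · have : p x (w j) = p x x := by
            refine (hA.stab x x (mem_ball_self h0) (w j) (hwb j) ?_).symm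
            exact (hγ' (τ j)).mono (by linarith)
          rw [this]
          exact hV t
      have hq : ∀ j, ∃ y, SR g.symm κ (z j) y ∧ p (z j) y = P j (v t) := fun j =>
        hpt (z j) (z j) (mem_ball_self (by positivity)) _ (lt_of_le_of_lt (hpz j) (by linarith))
      choose q hq1 hq2 using hq
      refine ⟨q, ?_, fun j hj => ?_, fun j hj => (hq1 j).mono κ1⟩
      · -- the first point
        have h5 := hcoord k hkk0 (P 0) (hP 0) (by
          have := hPe 0
          rw [hw0] at this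
          have hz0 : z 0 = g.symm^[k] x := by show g.symm^[k] (w 0) = _; rw [hw0]
          rw [hz0] at this
          exact this) t
        have hz0 : g.symm^[k] x = z 0 := by show _ = g.symm^[k] (w 0); rw [hw0]
        rw [hz0] at h5
        have h6 := hk₂ k hkk2 t
        rw [← hx, hz0] at h6
        refine hA.inj (z 0) (q 0) ?_ _ ?_ ?_ ?_
        · have := SR_d (hq1 0)
          rw [mem_ball, dist_comm]; linarith
        · have := SR_d h6
          rw [mem_ball, dist_comm]
          show dist (z 0) (g.symm^[k] (υ t).val) < ρ₀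
          linarith
        · exact (SR_tr (hq1 0).symm' h6).mono (by linarith)
        · rw [hq2]; exact h5.symm
      · -- consecutive points
        obtain ⟨θ, hθ, hθe, hrec'⟩ := hrec j hj
        have hzz := hz j hj
        have d1 := SR_d (hq1 j)
        have d2 := SR_d hzz
        have d3 : dist (q j) (z (j + 1)) < ηb := by
          have := dist_triangle_left (q j) (z (j + 1)) (z j)
          linarith
        obtain ⟨h5, h6⟩ := hbr (q j) (z (j + 1)) d3
        set y := br (q j) (z (j + 1)) with hy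
        have d4 := SR_d h6
        have hyj : y ∈ ball (z j) ρ₀ := by
          have := dist_triangle_left y (z j) (z (j + 1))
          rw [dist_comm (z (j + 1)) (z j)] at this
          rw [mem_ball]
          linarith
        have hyj1 : y ∈ ball (z (j + 1)) ρ₀ := by
          rw [mem_ball, dist_comm]; linarith
        have hqj : q j ∈ ball (z j) ρ₀ := by
          rw [mem_ball, dist_comm]; linarith
        -- `p (z (j + 1)) y = θ (p (z j) y)`
        obtain ⟨κp, h7, h8, h9⟩ := upath ⟨z (j + 1)⟩ ⟨y⟩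
          ((SM.dist_le _ _ hηu.le).mpr (h6.mono ε3))
        have h9' : ∀ s, SR g.symm (ρ₀ / 4) (z (j + 1)) (κp s).val := fun s =>
          (SM.dist_le _ _ (by positivity)).mp (h9 s)
        have key := hA.tr (x := z j) (y := z (j + 1)) (φ := g^[0])
          (fun u h1 h2 => hA.trF 0 (z j) (z (j + 1)) u h1 h2) (under κp) (fun s => by
            have a1 := SR_d (h9' s)
            have a2 := dist_triangle_left (κp s).val (z j) (z (j + 1))
            rw [dist_comm (z (j + 1)) (z j)] at a2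
            constructor
            · rw [mem_ball]
              show dist (κp s).val (z j) < ρ₀
              linarith
            · rw [mem_ball, dist_comm]
              show dist (z (j + 1)) (κp s).val < ρ₀
              linarith) hθ (by
                have : under κp 0 = z (j + 1) := by
                  show (κp 0).val = _
                  rw [h7]
                rw [this]
                exact hθe) 1
        have e1 : under κp 1 = y := by
          show (κp 1).val = y
          rw [h8]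
        rw [e1] at key
        have h10 : p (z (j + 1)) y = θ (p (z j) y) := key.self_of_nhds
        have h11 : p (z j) (q j) = p (z j) y :=
          hA.stab (z j) (q j) hqj y hyj (h5.mono (by linarith))
        have h12 : p (z (j + 1)) y = p (z (j + 1)) (q (j + 1)) := by
          rw [h10, ← h11, hq2, hq2, hrec']
        have h13 : y = q (j + 1) := by
          refine hA.inj (z (j + 1)) y hyj1 (q (j + 1)) ?_ ?_ h12
          · have := SR_d (hq1 (j + 1))
            rw [mem_ball, dist_comm]; linarith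
          · exact (SR_tr h6.symm' (hq1 (j + 1))).mono (by linarith)
        rw [← h13]
        exact h5.mono ε1)
  refine LO_of_iter (φ := g.symm) (fun x => by rw [g.symm_apply_apply, g.apply_symm_apply]) k υ υk
    x₁ x' (fun t => rfl) ?_
  have : z J = g.symm^[k] x₁ := by show g.symm^[k] (w J) = _; rw [hwJ]
  rw [← this]
  exact hx'

end Pool.Agent.T6.H66.TP
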