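import Pool.Agent.T6.H66.TP.Lift
import Pool.Agent.T6.H66.PS.Man

set_option autoImplicit false
set_option linter.unusedSectionVars false

open Filter Topology Set Metric
open scoped Manifold ContDiff

namespace Pool.Agent.T6.H66.TP

open Pool.Agent.H789R2.AN Pool.Agent.H789R2.GP Pool.Agent.H721R2 Pool.Agent.T6.H66.PS

theorem UAt.all_Lf {X : Type*} [MetricSpace X] {g : X ≃ₜ X} {d D : ℕ} {p : X → X → Fin d → ℝ}
    {ρ₀ c : ℝ} [CompactSpace X] (hA : UAt g d D p ρ₀) (h : LP g c) (hX : ULC X) :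
    ∀ a s, WS g a s → Lf g a s := by
  obtain ⟨η, hη, hl⟩ := hA.lift h hX
  intro a s has υ hυ
  obtain ⟨m, hm⟩ := has.eventually_lt hη
  have hcm : ∀ x, g (g.symm x) = g.symm (g x) := fun x => by
    rw [g.symm_apply_apply, g.apply_symm_apply]
  let υ' : C(unitInterval, SM g.symm) := ⟨fun t => ⟨g^[m] (υ t).val⟩,
    (SM.continuous_mapIter hcm m).comp υ.continuous⟩
  obtain ⟨x', hx'⟩ := hl υ' (g^[m] s) (by
    show SR g η (g^[m] (υ 0).val) (g^[m] s)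
    rw [hυ]
    intro k
    rw [← Function.iterate_add_apply, ← Function.iterate_add_apply]
    exact (hm (k + m) (by omega)).le)
  exact LO_of_iter (φ := g) (fun _ => rfl) m υ υ' s x' (fun t => rfl) hx'

/-- A transverse polynomial structure of degree at most `D` for the stable sets of `f`. -/
structure IsTrans {M : Type*} [TopologicalSpace M] (f : M ≃ₜ M) (d D : ℕ)
    (𝒜 : Set (Set M × (M → Fin d → ℝ))) : Prop where
  cover : ∀ x, ∃ a ∈ 𝒜, x ∈ a.1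
  isOpen : ∀ a ∈ 𝒜, IsOpen a.1
  cont : ∀ a ∈ 𝒜, ∀ x ∈ a.1, ContinuousAt a.2 x
  opn : ∀ a ∈ 𝒜, ∀ x ∈ a.1, ∀ N ∈ 𝓝 x, a.2 '' N ∈ 𝓝 (a.2 x)
  fib : ∀ a ∈ 𝒜, ∀ x ∈ a.1, ∃ N ∈ 𝓝 x, ∃ 𝒰 ∈ 𝓝ˢ (diagonal M), ∀ y ∈ N, ∀ z ∈ N,
    (Stp f 𝒰 y z → a.2 y = a.2 z) ∧ (Stp f.symm 𝒰 y z → a.2 y = a.2 z → y = z)
  trF : ∀ a ∈ 𝒜, ∀ b ∈ 𝒜, ∀ x ∈ a.1, ∀ k : ℕ, f^[k] x ∈ b.1 →
    ∃ P, IsPoly d D P ∧ ∀ᶠ y in 𝓝 x, b.2 (f^[k] y) = P (a.2 y)
  trB : ∀ a ∈ 𝒜, ∀ b ∈ 𝒜, ∀ x ∈ a.1, ∀ k : ℕ, f.symm^[k] x ∈ b.1 →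
    ∃ P, IsPoly d D P ∧ ∀ᶠ y in 𝓝 x, b.2 (f.symm^[k] y) = P (a.2 y)

theorem exists_pos_le {X : Type*} (T : Finset X) (f : X → ℝ) (hf : ∀ x ∈ T, 0 < f x) :
    ∃ δ > 0, ∀ x ∈ T, δ ≤ f x := by
  rcases T.eq_empty_or_nonempty with h | h
  · exact ⟨1, one_pos, fun x hx => by simp [h] at hx⟩
  · obtain ⟨x₀, hx₀, hmin⟩ := T.exists_min_image f h
    exact ⟨f x₀, hf x₀ hx₀, fun x hx => hmin x hx⟩

/-- uniform openness on compact sets -/
theorem opn_unif {X Y : Type*} [MetricSpace X] [MetricSpace Y] {K : Set X} (hK : IsCompact K)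
    (q : X → Y) (hq : ∀ y ∈ K, ContinuousAt q y ∧ ∀ N ∈ 𝓝 y, q '' N ∈ 𝓝 (q y)) {ρ : ℝ}
    (hρ : 0 < ρ) : ∃ r > 0, ∀ y ∈ K, ∀ v, dist v (q y) < r → ∃ z, dist z y < ρ ∧ q z = v := by
  have h1 : ∀ y : X, ∃ r > 0, ∃ s > 0, s ≤ ρ / 2 ∧ (y ∈ K → (∀ v, dist v (q y) < 2 * r →
      ∃ z, dist z y < ρ / 2 ∧ q z = v) ∧ ∀ y', dist y' y < s → dist (q y') (q y) < r) := by
    intro y
    by_cases hy : y ∈ K
    · obtain ⟨h2, h3⟩ := hq y hy
      obtain ⟨r, hr, h4⟩ := Metric.mem_nhds_iff.mp (h3 _ (ball_mem_nhds y (half_pos hρ)))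
      obtain ⟨s, hs, h5⟩ := Metric.continuousAt_iff.mp h2 (r / 2) (half_pos hr)
      refine ⟨r / 2, half_pos hr, min s (ρ / 2), by positivity, min_le_right _ _, fun _ => ⟨?_, ?_⟩⟩
      · intro v hv
        obtain ⟨z, hz, hzv⟩ := h4 (show v ∈ ball (q y) r by rw [mem_ball]; linarith)
        exact ⟨z, hz, hzv⟩
      · exact fun y' hy' => h5 (hy'.trans_le (min_le_left _ _))
    · exact ⟨1, one_pos, ρ / 2, half_pos hρ, le_rfl, fun h => absurd h hy⟩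
  choose r hr s hs hsρ h1 using h1
  obtain ⟨T, hTK, hT⟩ := hK.elim_nhds_subcover (fun y => ball y (s y))
    (fun y _ => ball_mem_nhds y (hs y))
  obtain ⟨δ, hδ, hmin⟩ := exists_pos_le T r (fun x _ => hr x)
  refine ⟨δ, hδ, fun y hy v hv => ?_⟩
  have := hT hy
  rw [mem_iUnion₂] at this
  obtain ⟨y₀, hy₀, hyy⟩ := this
  obtain ⟨h2, h3⟩ := h1 y₀ (hTK y₀ hy₀)
  have h4 := h3 y hyy
  have h5 := hmin y₀ hy₀
  have h6 := dist_triangle v (q y) (q y₀)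
  obtain ⟨z, hz, hzv⟩ := h2 v (by linarith)
  refine ⟨z, ?_, hzv⟩
  have h7 := dist_triangle_right z y y₀
  have h8 : dist y y₀ < s y₀ := hyy
  have h9 := hsρ y₀
  linarith

/-- From a transverse polynomial structure to a uniform atlas. -/
theorem IsTrans.uniform {M : Type*} [MetricSpace M] [CompactSpace M] {F g : M ≃ₜ M} {n : ℕ}
    (hn : 1 ≤ n) (hg : ∀ k x, g^[k] x = F^[n * k] x)
    (hg' : ∀ k x, g.symm^[k] x = F.symm^[n * k] x) {d D : ℕ}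
    {𝒜 : Set (Set M × (M → Fin d → ℝ))} (h : IsTrans F d D 𝒜) :
    ∃ (p : M → M → Fin d → ℝ) (ρ₀ : ℝ), UAt g d D p ρ₀ := by
  classical
  have hres : ∀ (G H : M ≃ₜ M), (∀ k x, H^[k] x = G^[n * k] x) → ∀ 𝒰 ∈ 𝓝ˢ (diagonal M),
      ∃ ρ' > 0, ∀ x y, SR H ρ' x y → Stp G 𝒰 x y := by
    intro G H hGH 𝒰 h𝒰
    rw [nhdsSet_diagonal_eq_uniformity] at h𝒰
    obtain ⟨ρ, hρ, hρ𝒰⟩ := Metric.mem_uniformity_dist.mp h𝒰
    obtain ⟨η, hη, h1⟩ := T1_unif G n hρ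
    refine ⟨η / 2, half_pos hη, fun x y hxy k => hρ𝒰 ?_⟩
    have h2 := Nat.div_add_mod k n
    have h3 := Nat.mod_lt k (show 0 < n by omega)
    have h4 : ∀ z : M, G^[k] z = G^[k % n] (H^[k / n] z) := fun z => by
      rw [hGH, ← Function.iterate_add_apply]
      congr 1
      omega
    rw [h4, h4]
    exact h1 _ h3.le _ _ (lt_of_le_of_lt (hxy _) (half_lt_self hη))
  have hloc : ∀ x : M, ∃ a ∈ 𝒜, ∃ r > 0, closedBall x (2 * r) ⊆ a.1 ∧
      ∀ y ∈ closedBall x (2 * r), ∀ z ∈ closedBall x (2 * r),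
        (SR g r y z → a.2 y = a.2 z) ∧ (SR g.symm r y z → a.2 y = a.2 z → y = z) := by
    intro x
    obtain ⟨a, ha, hxa⟩ := h.cover x
    obtain ⟨N, hN, 𝒰, h𝒰, hfib⟩ := h.fib a ha x hxa
    obtain ⟨r₁, hr₁, h1⟩ := Metric.mem_nhds_iff.mp hN
    obtain ⟨r₂, hr₂, h2⟩ := Metric.mem_nhds_iff.mp ((h.isOpen a ha).mem_nhds hxa)
    obtain ⟨r₃, hr₃, h3⟩ := hres F g hg 𝒰 h𝒰
    obtain ⟨r₄, hr₄, h4⟩ := hres F.symm g.symm hg' 𝒰 h𝒰
    set r := min (min (r₁ / 4) (r₂ / 4)) (min r₃ r₄) with hr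
    have hr0 : 0 < r := by positivity
    have e1 : r ≤ r₁ / 4 := (min_le_left _ _).trans (min_le_left _ _)
    have e2 : r ≤ r₂ / 4 := (min_le_left _ _).trans (min_le_right _ _)
    have e3 : r ≤ r₃ := (min_le_right _ _).trans (min_le_left _ _)
    have e4 : r ≤ r₄ := (min_le_right _ _).trans (min_le_right _ _)
    refine ⟨a, ha, r, hr0, fun y hy => h2 ?_, fun y hy z hz => ⟨fun hyz => ?_, fun hyz => ?_⟩⟩
    · rw [mem_closedBall] at hy; rw [mem_ball]; linarith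
    · refine (hfib y (h1 ?_) z (h1 ?_)).1 (h3 _ _ (hyz.mono e3))
      · rw [mem_closedBall] at hy; rw [mem_ball]; linarith
      · rw [mem_closedBall] at hz; rw [mem_ball]; linarith
    · refine (hfib y (h1 ?_) z (h1 ?_)).2 (h4 _ _ (hyz.mono e4))
      · rw [mem_closedBall] at hy; rw [mem_ball]; linarith
      · rw [mem_closedBall] at hz; rw [mem_ball]; linarith
  choose a ha r hr hball hfib using hloc
  obtain ⟨T, -, hT⟩ := (isCompact_univ : IsCompact (univ : Set M)).elim_nhds_subcover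
    (fun x => ball x (r x)) (fun x _ => ball_mem_nhds x (hr x))
  obtain ⟨ρ₀, hρ₀, hmin⟩ := exists_pos_le T r (fun x _ => hr x)
  have hctr : ∀ y : M, ∃ x ∈ T, dist y x < r x := by
    intro y
    have := hT (mem_univ y)
    rw [mem_iUnion₂] at this
    obtain ⟨x, hx, hy⟩ := this
    exact ⟨x, hx, hy⟩
  choose ctr hctrT hctr using hctr
  have hsub : ∀ x, ∀ y ∈ ball x ρ₀, y ∈ closedBall (ctr x) (2 * r (ctr x)) := by
    intro x y hy
    rw [mem_ball] at hy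
    rw [mem_closedBall]
    have h1 := dist_triangle y x (ctr x)
    have h2 := hctr x
    have h3 := hmin (ctr x) (hctrT x)
    linarith
  have hsub' : ∀ x, ∀ y ∈ ball x ρ₀, y ∈ (a (ctr x)).1 := fun x y hy =>
    hball (ctr x) (hsub x y hy)
  have hcpt : ∀ x : M, IsCompact (closedBall x (2 * r x)) := fun x => isClosed_closedBall.isCompact
  refine ⟨fun x => (a (ctr x)).2, ρ₀, hρ₀, ?_, ?_, ?_, ?_, ?_, ?_, ?_⟩
  · -- uniform continuity
    intro ε hε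
    have h1 : ∀ x : M, ∃ δ > 0, ∀ y ∈ closedBall x (2 * r x), ∀ z ∈ closedBall x (2 * r x),
        dist y z < δ → dist ((a x).2 y) ((a x).2 z) < ε := by
      intro x
      have h2 := (hcpt x).uniformContinuousOn_of_continuous (f := (a x).2) (fun y hy =>
        (h.cont _ (ha x) y (hball x hy)).continuousWithinAt)
      obtain ⟨δ, hδ, h3⟩ := Metric.uniformContinuousOn_iff.mp h2 ε hε
      exact ⟨δ, hδ, h3⟩
    choose δ hδ h1 using h1
    obtain ⟨δ₀, hδ₀, h2⟩ := exists_pos_le T δ (fun x _ => hδ x)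
    exact ⟨δ₀, hδ₀, fun x y hy z hz hyz => h1 (ctr x) y (hsub x y hy) z (hsub x z hz)
      (hyz.trans_le (h2 _ (hctrT x)))⟩
  · intro x y hy z hz hyz
    exact (hfib (ctr x) y (hsub x y hy) z (hsub x z hz)).1 (hyz.mono (hmin _ (hctrT x)))
  · intro x y hy z hz hyz
    exact (hfib (ctr x) y (hsub x y hy) z (hsub x z hz)).2 (hyz.mono (hmin _ (hctrT x)))
  · intro ρ hρ
    have h1 : ∀ x : M, ∃ r' > 0, ∀ y ∈ closedBall x (2 * r x), ∀ v, dist v ((a x).2 y) < r' →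
        ∃ z, dist z y < ρ ∧ (a x).2 z = v := fun x =>
      opn_unif (hcpt x) (a x).2 (fun y hy => ⟨h.cont _ (ha x) y (hball x hy),
        h.opn _ (ha x) y (hball x hy)⟩) hρ
    choose r' hr' h1 using h1
    obtain ⟨δ₀, hδ₀, h2⟩ := exists_pos_le T r' (fun x _ => hr' x)
    refine ⟨δ₀, hδ₀, fun x y hy v hv => h1 (ctr x) y (hsub x y ?_) v
      (hv.trans_le (h2 _ (hctrT x)))⟩
    rw [mem_ball] at hy ⊢
    linarith
  · intro x y hy N hN
    exact h.opn _ (ha _) y (hsub' x y hy) N hN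
  · intro k x y z hz hgz
    have h1 := hsub' y _ hgz
    rw [hg] at h1
    obtain ⟨P, hP, hPe⟩ := h.trF _ (ha (ctr x)) _ (ha (ctr y)) z (hsub' x z hz) (n * k) h1
    refine ⟨P, hP, ?_⟩
    filter_upwards [hPe] with w hw
    rw [hg]
    exact hw
  · intro k x y z hz hgz
    have h1 := hsub' y _ hgz
    rw [hg'] at h1
    obtain ⟨P, hP, hPe⟩ := h.trB _ (ha (ctr x)) _ (ha (ctr y)) z (hsub' x z hz) (n * k) h1
    refine ⟨P, hP, ?_⟩
    filter_upwards [hPe] with w hw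
    rw [hg']
    exact hw

section manifold

variable {E : Type*} [NormedAddCommGroup E] [NormedSpace ℝ E] [FiniteDimensional ℝ E]

theorem sys_trans {G : Type*} [NormedAddCommGroup G] [NormedSpace ℝ G]
    {M : Type*} [MetricSpace M] [CompactSpace M] [ConnectedSpace M] [ChartedSpace E M]
    (S : HypSys M G) (F : M ≃ₜ M) (n : ℕ) (hn : 1 ≤ n)
    (hg : ∀ k x, S.g^[k] x = F^[n * k] x) (hg' : ∀ k x, S.g.symm^[k] x = F.symm^[n * k] x)
    {d D : ℕ} {𝒜 : Set (Set M × (M → Fin d → ℝ))} (h : IsTrans F d D 𝒜) :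
    ∃ π : E → M, IsCoveringMap π ∧ Function.Surjective π := by
  have : ProperSpace E := FiniteDimensional.proper_real E
  obtain ⟨c, hLP⟩ := exists_LP S
  have hX : ULC M := ulc_of_charted (X := M) (E := E)
  obtain ⟨p, ρ₀, hA⟩ := h.uniform hn hg hg'
  obtain ⟨π, hπ⟩ := cov_of_Lf (E := E) S hLP (hA.all_Lf hLP hX)
  exact ⟨π, hπ, covering_surj hπ⟩

/-- **Transversely polynomial foliations.** -/
theorem man_trans_poly {M : Type*} [TopologicalSpace M] [T2Space M] [CompactSpace M]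
    [ConnectedSpace M] [ChartedSpace E M] [IsManifold 𝓘(ℝ, E) ∞ M]
    (f : Diffeomorph 𝓘(ℝ, E) 𝓘(ℝ, E) M M 1)
    (Es Eu : ∀ x : M, Submodule ℝ (TangentSpace 𝓘(ℝ, E) x)) (hA : IsAnosov f Es Eu) (d D : ℕ)
    (𝒜 : Set (Set M × (M → Fin d → ℝ)))
    (h : IsTrans f.toHomeomorph d D 𝒜 ∨ IsTrans f.toHomeomorph.symm d D 𝒜) :
    ∃ π : E → M, IsCoveringMap π ∧ Function.Surjective π := by
  obtain ⟨m, e, he, hemb, hinj⟩ := exists_embedding_euclidean_of_compact (I := 𝓘(ℝ, E)) (M := M)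
  let _ : MetricSpace M := hemb.isEmbedding.comapMetricSpace e
  have hiso : ∀ x y : M, dist x y = ‖e x - e y‖ := fun x y => dist_eq_norm (e x) (e y)
  have he1 : ContMDiff 𝓘(ℝ, E) (𝓡 m) 1 e := he.of_le (by simp)
  obtain ⟨n, S, hn, hSg⟩ := exists_sys_pos hiso he1 hinj f Es Eu hA
  set F : M ≃ₜ M := f.toHomeomorph with hF
  have hg : ∀ k x, S.g^[k] x = F^[n * k] x := fun k x => by
    rw [hSg, Function.iterate_mul]; rfl
  have hg' : ∀ k x, S.g.symm^[k] x = F.symm^[n * k] x := fun k x => by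
    rw [hSg, Function.iterate_mul]; rfl
  rcases h with h | h
  · exact sys_trans S F n hn hg hg' h
  · exact sys_trans S.symm F.symm n hn hg' hg h

end manifold

end Pool.Agent.T6.H66.TP
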