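import Mathlib

set_option autoImplicit false

open Filter Topology Set Metric

namespace Pool.Agent.T6.H66.TP

/-- A map `ℝᵈ → ℝᵈ` given by polynomials of degree at most `D`. -/
def IsPoly (d D : ℕ) (P : (Fin d → ℝ) → Fin d → ℝ) : Prop :=
  ∃ Q : Fin d → MvPolynomial (Fin d) ℝ, (∀ c, (Q c).totalDegree ≤ D) ∧
    ∀ v c, P v c = MvPolynomial.eval v (Q c)

variable {d D D' : ℕ} {P P' : (Fin d → ℝ) → Fin d → ℝ}

theorem IsPoly.ext (h : IsPoly d D P) (h' : IsPoly d D' P') {v₀ : Fin d → ℝ}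
    (he : ∀ᶠ v in 𝓝 v₀, P v = P' v) : P = P' := by
  obtain ⟨Q, -, hQ⟩ := h
  obtain ⟨Q', -, hQ'⟩ := h'
  obtain ⟨ε, hε, hball⟩ := Metric.eventually_nhds_iff.mp he
  have hQQ : Q = Q' := by
    funext c
    refine MvPolynomial.funext_set (fun i => Metric.ball (v₀ i) ε) (fun i => ?_) (fun x hx => ?_)
    · rw [Real.ball_eq_Ioo]
      exact Set.Ioo_infinite (by linarith)
    · have hx' : dist x v₀ < ε := (dist_pi_lt_iff hε).mpr fun i => hx i (mem_univ i)
      rw [← hQ, ← hQ', hball hx']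
  funext v c
  rw [hQ, hQ', hQQ]

theorem IsPoly.comp (h : IsPoly d D P) (h' : IsPoly d D' P') :
    ∃ D'', IsPoly d D'' (fun v => P (P' v)) := by
  obtain ⟨Q, -, hQ⟩ := h
  obtain ⟨Q', -, hQ'⟩ := h'
  refine ⟨Finset.univ.sup fun c => (MvPolynomial.bind₁ Q' (Q c)).totalDegree,
    fun c => MvPolynomial.bind₁ Q' (Q c), fun c => Finset.le_sup (f := fun c =>
      (MvPolynomial.bind₁ Q' (Q c)).totalDegree) (Finset.mem_univ c), fun v c => ?_⟩
  show P (P' v) c = MvPolynomial.eval v (MvPolynomial.bind₁ Q' (Q c))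
  have h1 : P' v = fun i => MvPolynomial.aeval v (Q' i) := by
    funext i
    rw [hQ']
    rfl
  have h2 := MvPolynomial.aeval_bind₁ (S := ℝ) v Q' (Q c)
  rw [hQ, h1]
  exact h2.symm

theorem IsPoly.continuous (h : IsPoly d D P) : Continuous P := by
  obtain ⟨Q, -, hQ⟩ := h
  refine continuous_pi fun c => ?_
  have : (fun v => P v c) = fun v => MvPolynomial.eval v (Q c) := funext fun v => hQ v c
  rw [this]
  exact MvPolynomial.continuous_eval _

theorem natDegree_line (Q : MvPolynomial (Fin d) ℝ) (f : Fin d → Polynomial ℝ)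
    (hf : ∀ i, (f i).natDegree ≤ 1) (hQ : Q.totalDegree ≤ D) :
    (MvPolynomial.aeval f Q).natDegree ≤ D := by
  rw [MvPolynomial.aeval_def, MvPolynomial.eval₂_eq]
  refine Polynomial.natDegree_sum_le_of_forall_le _ _ fun m hm => ?_
  refine (Polynomial.natDegree_C_mul_le _ _).trans ?_
  refine (Polynomial.natDegree_prod_le _ _).trans ?_
  refine le_trans ?_ ((MvPolynomial.le_totalDegree hm).trans hQ)
  refine Finset.sum_le_sum fun i _ => ?_
  refine Polynomial.natDegree_pow_le.trans ?_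
  calc m i * (f i).natDegree ≤ m i * 1 := Nat.mul_le_mul_left _ (hf i)
    _ = m i := mul_one _

/-- Polynomial maps of bounded degree that are small on a ball are small on larger balls. -/
theorem IsPoly.bound (d D : ℕ) {r V : ℝ} (hr : 0 < r) (hV : 0 ≤ V) : ∃ C > 0, ∀ P, IsPoly d D P →
    ∀ (v₀ y₀ : Fin d → ℝ) (ε : ℝ), (∀ v, dist v v₀ ≤ r → dist (P v) y₀ ≤ ε) →
      ∀ v, dist v v₀ ≤ V → dist (P v) y₀ ≤ C * ε := by
  classical
  set τ : ℝ := r / (V + 1) with hτ
  have hτ0 : 0 < τ := by positivity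
  have hτV : τ * V ≤ r := by
    rw [hτ, div_mul_eq_mul_div, div_le_iff₀ (by positivity)]
    nlinarith
  set s := Finset.range (D + 1) with hs
  let nd : ℕ → ℝ := fun i => (i / (D + 1)) * τ
  have hnd : Set.InjOn nd s := by
    intro i _ j _ hij
    have h1 : ((i : ℝ) / (D + 1)) * τ = (j / (D + 1)) * τ := hij
    have h2 := mul_right_cancel₀ hτ0.ne' h1
    have h3 : ((i : ℝ)) = j := by
      field_simp at h2
      exact h2
    exact_mod_cast h3
  have hnd0 : ∀ i ∈ s, 0 ≤ nd i ∧ nd i ≤ τ := by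
    intro i hi
    have h1 : (i : ℝ) ≤ D + 1 := by
      have := Finset.mem_range.mp hi
      exact_mod_cast this.le
    have h2 : (i : ℝ) / (D + 1) ≤ 1 := by
      rw [div_le_one (by positivity)]
      exact h1
    refine ⟨by positivity, ?_⟩
    calc (i / (D + 1)) * τ ≤ 1 * τ := mul_le_mul_of_nonneg_right h2 hτ0.le
      _ = τ := one_mul τ
  refine ⟨∑ i ∈ s, |(Lagrange.basis s nd i).eval 1| + 1, by positivity,
    fun P hP v₀ y₀ ε hε v hv => ?_⟩
  obtain ⟨Q, hQD, hQ⟩ := hP
  have hε0 : 0 ≤ ε := dist_nonneg.trans (hε v₀ (by rw [dist_self]; exact hr.le))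
  refine (dist_pi_le_iff (by positivity)).mpr fun c => ?_
  let f : Fin d → Polynomial ℝ := fun i => Polynomial.C (v₀ i) +
    Polynomial.X * Polynomial.C (v i - v₀ i)
  have hf : ∀ i, (f i).natDegree ≤ 1 := by
    intro i
    refine Polynomial.natDegree_add_le_of_degree_le (by simp) ?_
    refine Polynomial.natDegree_mul_le.trans ?_
    simp
  let q : Polynomial ℝ := MvPolynomial.aeval f (Q c) - Polynomial.C (y₀ c)
  have hqd : q.natDegree ≤ D := by
    refine (Polynomial.natDegree_sub_le _ _).trans ?_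
    refine max_le (natDegree_line _ _ hf (hQD c)) (by simp)
  have hqe : ∀ t : ℝ, q.eval t = P (fun i => v₀ i + t * (v i - v₀ i)) c - y₀ c := by
    intro t
    rw [hQ]
    show (MvPolynomial.aeval f (Q c) - Polynomial.C (y₀ c)).eval t = _
    rw [Polynomial.eval_sub, Polynomial.eval_C]
    congr 1
    have h1 : Polynomial.eval t (MvPolynomial.aeval f (Q c)) =
        MvPolynomial.aeval (fun i => (f i).eval t) (Q c) := by
      have := MvPolynomial.map_aeval f (Polynomial.evalRingHom t) (Q c)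
      rw [Polynomial.coe_evalRingHom] at this
      rw [this, MvPolynomial.aeval_def]
      rw [MvPolynomial.coe_eval₂Hom]
      congr 1
      ext x
      simp
    rw [h1]
    have h2 : (fun i => (f i).eval t) = fun i => v₀ i + t * (v i - v₀ i) := by
      funext i
      show ((Polynomial.C (v₀ i) + Polynomial.X * Polynomial.C (v i - v₀ i))).eval t = _
      simp
    rw [h2]
    rfl
  have hq1 : q.eval 1 = ∑ i ∈ s, q.eval (nd i) * (Lagrange.basis s nd i).eval 1 := by
    have hdeg : q.degree < s.card := by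
      rw [hs, Finset.card_range]
      exact lt_of_le_of_lt Polynomial.degree_le_natDegree (by exact_mod_cast Nat.lt_succ_of_le hqd)
    have h1 := Lagrange.eq_interpolate hnd hdeg
    conv_lhs => rw [h1]
    rw [Lagrange.interpolate_apply, Polynomial.eval_finsetSum]
    refine Finset.sum_congr rfl fun i _ => ?_
    rw [Polynomial.eval_mul, Polynomial.eval_C]
  have h3 : P v c - y₀ c = q.eval 1 := by
    rw [hqe]
    congr 2
    funext i
    ring
  rw [Real.dist_eq, h3, hq1]
  refine (Finset.abs_sum_le_sum_abs _ _).trans ?_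
  have h4 : ∀ i ∈ s, |q.eval (nd i) * (Lagrange.basis s nd i).eval 1| ≤
      |(Lagrange.basis s nd i).eval 1| * ε := by
    intro i hi
    rw [abs_mul, mul_comm]
    refine mul_le_mul_of_nonneg_left ?_ (abs_nonneg _)
    rw [hqe, ← Real.dist_eq]
    obtain ⟨h5, h6⟩ := hnd0 i hi
    refine (dist_le_pi_dist _ _ c).trans (hε _ ?_)
    refine (dist_pi_le_iff hr.le).mpr fun j => ?_
    rw [Real.dist_eq]
    have h7 : v₀ j + nd i * (v j - v₀ j) - v₀ j = nd i * (v j - v₀ j) := by ring
    rw [h7, abs_mul, abs_of_nonneg h5]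
    have h8 : |v j - v₀ j| ≤ V := by
      rw [← Real.dist_eq]
      exact (dist_le_pi_dist _ _ j).trans hv
    calc nd i * |v j - v₀ j| ≤ τ * V := mul_le_mul h6 h8 (abs_nonneg _) hτ0.le
      _ ≤ r := hτV
  refine (Finset.sum_le_sum h4).trans ?_
  rw [← Finset.sum_mul, add_mul, one_mul]
  linarith

end Pool.Agent.T6.H66.TP
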