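import Pool.Agent.T6.H66.TP.Atlas

set_option autoImplicit false

open Filter Topology Set Metric unitInterval

namespace Pool.Agent.T6.H66.TP

open Pool.Agent.H789R2.AN Pool.Agent.H789R2.GP Pool.Agent.H721R2 Pool.Agent.T6.H66.PS

variable {X : Type*} [MetricSpace X] {g : X ≃ₜ X} {d D : ℕ} {p : X → X → Fin d → ℝ} {ρ₀ c : ℝ}

/-- the underlying path in `X` of a path in a leaf -/
noncomputable def under [CompactSpace X] {g : X ≃ₜ X} (γ : C(I, SM g)) : C(I, X) :=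
  ⟨fun t => (γ t).val, SM.val_continuous.comp γ.continuous⟩

theorem UAt.pt [CompactSpace X] (hA : UAt g d D p ρ₀) (h : LP g c) {κ : ℝ} (hκ : 0 < κ) :
    ∃ r > 0, ∀ x, ∀ w ∈ ball x (ρ₀ / 4), ∀ v, dist v (p x w) < r →
      ∃ y, SR g.symm κ w y ∧ p x y = v := by
  obtain ⟨br, δ, hδ, -, h2, h3, -⟩ := exists_br h
  have h0 := hA.pos
  obtain ⟨η, hη, hbr⟩ := h2 (min κ (ρ₀ / 4)) (by positivity)
  obtain ⟨r, hr, hop⟩ := hA.opn (min η (ρ₀ / 8)) (by positivity)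
  refine ⟨r, hr, fun x w hw v hv => ?_⟩
  have hw' : dist w x < ρ₀ / 4 := hw
  obtain ⟨z, hz, hzv⟩ := hop x w (by rw [mem_ball]; linarith) v hv
  obtain ⟨h5, h6⟩ := hbr z w (hz.trans_le (min_le_left _ _))
  have a1 := hz.trans_le (min_le_right _ _)
  have a2 := dist_triangle z w x
  have a3 := SR_d (h6.mono (min_le_right _ _))
  have a4 := dist_triangle_left (br z w) x w
  have a5 : SR g ρ₀ z (br z w) := h5.mono ((min_le_right _ _).trans (by linarith))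
  refine ⟨br z w, h6.mono (min_le_left _ _), ?_⟩
  rw [← hA.stab x z (by rw [mem_ball]; linarith) (br z w) (by rw [mem_ball]; linarith) a5, hzv]

theorem UAt.small [CompactSpace X] (hA : UAt g d D p ρ₀) (h : LP g c) (hX : ULC X) :
    ∃ r > 0, ∀ ε > 0, ∃ k₁ : ℕ, ∀ k ≥ k₁, ∀ x, ∀ w ∈ ball x (ρ₀ / 4), ∀ P, IsPoly d D P →
      (∀ᶠ u in 𝓝 w, p (g.symm^[k] w) (g.symm^[k] u) = P (p x u)) →
      ∀ v, dist v (p x w) ≤ r →
        dist (P v) (p (g.symm^[k] w) (g.symm^[k] w)) ≤ ε := by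
  have h0 := hA.pos
  have hc := h.c_pos
  obtain ⟨ηu, hηu, hpath⟩ := leaf_path h.symm hX (min (ρ₀ / 4) c) (by positivity)
  obtain ⟨r, hr, hpt⟩ := hA.pt h hηu
  refine ⟨r / 2, half_pos hr, fun ε hε => ?_⟩
  obtain ⟨δ, hδ, hun⟩ := hA.unif ε hε
  obtain ⟨k₁, hk₁⟩ := pow_half_small c (lt_min (half_pos hδ) (half_pos h0))
  refine ⟨k₁, fun k hk x w hw P hP he v hv => ?_⟩
  obtain ⟨y, hy1, hy2⟩ := hpt x w hw v (lt_of_le_of_lt hv (by linarith))
  obtain ⟨υ, hυ0, hυ1, hυ⟩ := hpath ⟨w⟩ ⟨y⟩ ((SM.dist_le _ _ hηu.le).mpr hy1)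
  have hυ' : ∀ t, SR g.symm (min (ρ₀ / 4) c) w (υ t).val := fun t =>
    (SM.dist_le _ _ (by positivity)).mp (hυ t)
  have hwx : dist w x < ρ₀ / 4 := hw
  have hmem : ∀ t, under υ t ∈ ball x ρ₀ ∧
      g.symm^[k] (under υ t) ∈ ball (g.symm^[k] w) ρ₀ := by
    intro t
    have a1 := (hυ' t).mono (min_le_left _ _)
    have a2 := SR_d a1
    have a3 := a1 k
    have a4 := dist_triangle_left (υ t).val x w
    constructor
    · rw [mem_ball]
      show dist (υ t).val x < ρ₀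
      linarith
    · rw [mem_ball, dist_comm]
      show dist (g.symm^[k] w) (g.symm^[k] (υ t).val) < ρ₀
      linarith
  have e0 : under υ 0 = w := by
    show (υ 0).val = w
    rw [hυ0]
  have e1 : under υ 1 = y := by
    show (υ 1).val = y
    rw [hυ1]
  have key := hA.tr (x := x) (y := g.symm^[k] w) (φ := g.symm^[k])
    (fun z h1 h2 => hA.trB k x (g.symm^[k] w) z h1 h2) (under υ) hmem hP (by rw [e0]; exact he) 1
  rw [e1] at key
  have h3 := key.self_of_nhds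
  rw [hy2] at h3
  rw [← h3]
  have h4 : dist (g.symm^[k] y) (g.symm^[k] w) ≤ min (δ / 2) (ρ₀ / 2) := by
    have a1 := (hυ' 1).mono (min_le_right _ _)
    rw [hυ1] at a1
    rw [dist_comm]
    exact (h.cU _ _ a1 k).trans (hk₁ k hk)
  refine (hun (g.symm^[k] w) _ ?_ _ (mem_ball_self h0) ?_).le
  · rw [mem_ball]
    have := h4.trans (min_le_right _ _)
    linarith
  · have := h4.trans (min_le_left _ _)
    linarith

theorem UAt.small' [CompactSpace X] (hA : UAt g d D p ρ₀) (h : LP g c) (hX : ULC X) {V : ℝ}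
    (hV : 0 ≤ V) : ∀ ε > 0, ∃ k₁ : ℕ, ∀ k ≥ k₁, ∀ x, ∀ w ∈ ball x (ρ₀ / 4), ∀ P, IsPoly d D P →
      (∀ᶠ u in 𝓝 w, p (g.symm^[k] w) (g.symm^[k] u) = P (p x u)) →
      ∀ v, dist v (p x w) ≤ V →
        dist (P v) (p (g.symm^[k] w) (g.symm^[k] w)) ≤ ε := by
  intro ε hε
  obtain ⟨r, hr, hs⟩ := hA.small h hX
  obtain ⟨C, hC, hb⟩ := IsPoly.bound d D hr hV
  obtain ⟨k₁, hk₁⟩ := hs (ε / C) (by positivity)
  refine ⟨k₁, fun k hk x w hw P hP he v hv => ?_⟩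
  have h1 := hb P hP (p x w) (p (g.symm^[k] w) (g.symm^[k] w)) (ε / C)
    (fun v hv => hk₁ k hk x w hw P hP he v hv) v hv
  rwa [mul_div_cancel₀ ε hC.ne'] at h1

end Pool.Agent.T6.H66.TP
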